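import Mathlib
import Pool.Agent.Q16.MH.Ultra

/-!
# Heights on a geometric quotient are comparable with minimal heights in orbits
-/

set_option autoImplicit false

namespace Pool.Agent.Results.MP_216eb3_nt.OrbitHeights

open MvPolynomial
open Pool.Agent.Helper259.AbsHt Pool.Agent.Q16.MH

/-- the points of projective space of dimension `N` over the algebraic numbers -/
abbrev Pt (N : ℕ) : Type := Projectivization Qbar (Fin (N + 1) → Qbar)

/-- the standard absolute logarithmic height on projective space -/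
noncomputable def ht {N : ℕ} (P : Pt N) : ℝ := absLogHeight P.rep

/-- locally closed subsets of projective space: the common zeros of a set of homogeneous polynomials
at which some member of a second set of homogeneous polynomials does not vanish -/
def IsQuasiProj {N : ℕ} (X : Set (Pt N)) : Prop :=
  ∃ A B : Set (MvPolynomial (Fin (N + 1)) Qbar),
    (∀ f ∈ A ∪ B, ∃ m, f.IsHomogeneous m) ∧
    ∀ P : Pt N, P ∈ X ↔ (∀ f ∈ A, eval P.rep f = 0) ∧ ∃ f ∈ B, eval P.rep f ≠ 0

/-- regular maps from `X` to projective space: near every point the map is given by homogeneous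
polynomials of the same degree without common zero -/
def IsRegularMap {N M : ℕ} (X : Set (Pt N)) (π : X → Pt M) : Prop :=
  ∀ x : X, ∃ (m : ℕ) (p : Fin (M + 1) → MvPolynomial (Fin (N + 1)) Qbar),
    (∀ i, (p i).IsHomogeneous m) ∧ (fun i => eval x.1.rep (p i)) ≠ 0 ∧
    ∀ (x' : X) (h : (fun i => eval x'.1.rep (p i)) ≠ 0),
      π x' = Projectivization.mk Qbar (fun i => eval x'.1.rep (p i)) h

/-- ample heights on a subset of projective space: up to a positive multiple and a bounded function,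
the standard height -/
def IsAmpleHeight {N : ℕ} (X : Set (Pt N)) (h : X → ℝ) : Prop :=
  ∃ a > 0, ∃ C : ℝ, ∀ x : X, |h x - a * ht x.1| ≤ C

/-- the relation `A ≍ B` -/
def Comparable {S : Type*} (A B : S → ℝ) : Prop :=
  ∃ c₁ > 0, ∃ c₂ > 0, ∃ c₃ c₄ : ℝ, ∀ s : S, c₁ * A s - c₃ ≤ B s ∧ B s ≤ c₂ * A s + c₄

lemma eval_smul_homog {N m : ℕ} {f : MvPolynomial (Fin (N + 1)) Qbar} (hf : f.IsHomogeneous m)
    (c : Qbar) (v : Fin (N + 1) → Qbar) : eval (c • v) f = c ^ m * eval v f := by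
  rw [eval_eq, eval_eq, Finset.mul_sum]
  refine Finset.sum_congr rfl fun d hd => ?_
  have h1 : ∑ i, d i = m := by
    have := hf (mem_support_iff.mp hd)
    rw [Finsupp.weight_apply, Finsupp.sum_fintype _ _ (by simp)] at this
    simpa using this
  have h2 : ∀ i ∈ d.support, (c • v) i ^ d i = c ^ d i * v i ^ d i := by
    intro i _
    rw [Pi.smul_apply, smul_eq_mul, mul_pow]
  rw [Finset.prod_congr rfl h2, Finset.prod_mul_distrib, Finset.prod_pow_eq_pow_sum]
  have h3 : ∑ i ∈ d.support, d i = m := by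
    rw [← h1]
    apply Finset.sum_subset (Finset.subset_univ _)
    intro i _ hi
    exact Finsupp.notMem_support_iff.mp hi
  rw [h3]
  ring

lemma ht_mk {N : ℕ} (v : Fin (N + 1) → Qbar) (hv : v ≠ 0) :
    ht (Projectivization.mk Qbar v hv) = absLogHeight v := by
  obtain ⟨a, ha⟩ := Projectivization.exists_smul_eq_mk_rep Qbar v hv
  rw [ht, ← ha]
  exact absLogHeight_smul v a.ne_zero

lemma ht_nonneg {N : ℕ} (P : Pt N) : 0 ≤ ht P := absLogHeight_nonneg _

/-- membership may be tested on any representative -/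
lemma quasi_mk {N : ℕ} {X : Set (Pt N)} {A B : Set (MvPolynomial (Fin (N + 1)) Qbar)}
    (hAB : ∀ f ∈ A ∪ B, ∃ m, f.IsHomogeneous m)
    (hX : ∀ P : Pt N, P ∈ X ↔ (∀ f ∈ A, eval P.rep f = 0) ∧ ∃ f ∈ B, eval P.rep f ≠ 0)
    (v : Fin (N + 1) → Qbar) (hv : v ≠ 0) :
    Projectivization.mk Qbar v hv ∈ X ↔ (∀ f ∈ A, eval v f = 0) ∧ ∃ f ∈ B, eval v f ≠ 0 := by
  obtain ⟨a, ha⟩ := Projectivization.exists_smul_eq_mk_rep Qbar v hv
  have key : ∀ f ∈ A ∪ B, (eval (Projectivization.mk Qbar v hv).rep f = 0 ↔ eval v f = 0) := by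
    intro f hf
    obtain ⟨m, hm⟩ := hAB f hf
    rw [← ha]
    have h1 : (a • v) = (a : Qbar) • v := rfl
    rw [h1, eval_smul_homog hm, mul_eq_zero]
    constructor
    · rintro (h | h)
      · exact absurd h (pow_ne_zero _ a.ne_zero)
      · exact h
    · exact Or.inr
  rw [hX]
  constructor
  · rintro ⟨h1, f, hf, h2⟩
    exact ⟨fun g hg => (key g (Or.inl hg)).mp (h1 g hg), f, hf,
      fun h => h2 ((key f (Or.inr hf)).mpr h)⟩
  · rintro ⟨h1, f, hf, h2⟩
    exact ⟨fun g hg => (key g (Or.inl hg)).mpr (h1 g hg), f, hf,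
      fun h => h2 ((key f (Or.inr hf)).mp h)⟩

/-- the map may be computed on any representative -/
lemma chart_mk {N M : ℕ} {X : Set (Pt N)} {π : X → Pt M} {m : ℕ}
    {p : Fin (M + 1) → MvPolynomial (Fin (N + 1)) Qbar} (hp : ∀ i, (p i).IsHomogeneous m)
    (hπ : ∀ (x' : X) (h : (fun i => eval x'.1.rep (p i)) ≠ 0),
      π x' = Projectivization.mk Qbar (fun i => eval x'.1.rep (p i)) h)
    (v : Fin (N + 1) → Qbar) (hv : v ≠ 0) (hvX : Projectivization.mk Qbar v hv ∈ X)
    (h : (fun i => eval v (p i)) ≠ 0) :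
    π ⟨Projectivization.mk Qbar v hv, hvX⟩ = Projectivization.mk Qbar (fun i => eval v (p i)) h := by
  obtain ⟨a, ha⟩ := Projectivization.exists_smul_eq_mk_rep Qbar v hv
  have h1 : (fun i => eval (Projectivization.mk Qbar v hv).rep (p i)) =
      ((a : Qbar) ^ m) • (fun i => eval v (p i)) := by
    funext i
    rw [← ha]
    have h1 : (a • v) = (a : Qbar) • v := rfl
    rw [h1, eval_smul_homog (hp i)]
    rfl
  have ham : (a : Qbar) ^ m ≠ 0 := pow_ne_zero _ a.ne_zero
  have h2 : (fun i => eval (Projectivization.mk Qbar v hv).rep (p i)) ≠ 0 := by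
    rw [h1]
    exact smul_ne_zero ham h
  rw [hπ ⟨Projectivization.mk Qbar v hv, hvX⟩ h2, Projectivization.mk_eq_mk_iff']
  exact ⟨(a : Qbar) ^ m, h1.symm⟩

/-- finitely many charts suffice -/
lemma finite_charts {N M : ℕ} {X : Set (Pt N)} {π : X → Pt M} (hπ : IsRegularMap X π) :
    ∃ (T : Type) (_ : Fintype T) (m : T → ℕ)
      (p : T → Fin (M + 1) → MvPolynomial (Fin (N + 1)) Qbar),
      (∀ t i, (p t i).IsHomogeneous (m t)) ∧
      (∀ t, ∀ (x' : X) (h : (fun i => eval x'.1.rep (p t i)) ≠ 0),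
        π x' = Projectivization.mk Qbar (fun i => eval x'.1.rep (p t i)) h) ∧
      ∀ x : X, ∃ t, (fun i => eval x.1.rep (p t i)) ≠ 0 := by
  classical
  choose m p hp1 hp2 hp3 using hπ
  set s : Set (MvPolynomial (Fin (N + 1)) Qbar) := {f | ∃ (x : X) (i : Fin (M + 1)), f = p x i} with hs
  obtain ⟨s', hs', hspan⟩ := (Submodule.fg_span_iff_fg_span_finset_subset s).mp
    (IsNoetherian.noetherian (Submodule.span (MvPolynomial (Fin (N + 1)) Qbar) s))
  have hsel : ∀ f : s', ∃ x : X, ∃ i, (f : MvPolynomial (Fin (N + 1)) Qbar) = p x i :=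
    fun f => hs' f.2
  choose X0 i0 hX0 using hsel
  refine ⟨Fin (Fintype.card s'), inferInstance, fun t => m (X0 ((Fintype.equivFin s').symm t)),
    fun t => p (X0 ((Fintype.equivFin s').symm t)), fun t => hp1 _, fun t => hp3 _, ?_⟩
  intro x
  by_contra hcon
  push Not at hcon
  -- all the polynomials vanish at `x`
  have h1 : ∀ f ∈ Submodule.span (MvPolynomial (Fin (N + 1)) Qbar) s, eval x.1.rep f = 0 := by
    intro f hf
    rw [hspan] at hf
    have h2 : Submodule.span (MvPolynomial (Fin (N + 1)) Qbar) (s' : Set _) ≤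
        RingHom.ker (eval x.1.rep) := by
      rw [Submodule.span_le]
      intro g hg
      have h3 := hcon (Fintype.equivFin s' ⟨g, hg⟩)
      rw [Equiv.symm_apply_apply] at h3
      have h4 := congrFun h3 (i0 ⟨g, hg⟩)
      have h5 := hX0 ⟨g, hg⟩
      show eval x.1.rep g = 0
      have h6 : g = p (X0 ⟨g, hg⟩) (i0 ⟨g, hg⟩) := h5
      rw [h6]
      exact h4
    exact h2 hf
  apply hp2 x
  funext i
  exact h1 _ (Submodule.subset_span ⟨x, i, rfl⟩)

/-- the easy inequality -/
lemma upper {N M : ℕ} {X : Set (Pt N)} {π : X → Pt M} (hπ : IsRegularMap X π) :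
    ∃ m C : ℝ, 0 < m ∧ ∀ x : X, ht (π x) ≤ C + m * ht x.1 := by
  classical
  obtain ⟨T, hT, m, p, hp1, hp2, hp3⟩ := finite_charts hπ
  choose C hC using fun t => absLogHeight_eval (m t) (p t) (hp1 t)
  refine ⟨1 + ∑ t, (m t : ℝ), ∑ t, |C t|, by positivity, fun x => ?_⟩
  obtain ⟨t, ht'⟩ := hp3 x
  rw [hp2 t x ht', ht_mk]
  refine (hC t x.1.rep).trans ?_
  have h1 : C t ≤ ∑ t, |C t| := (le_abs_self _).trans
    (Finset.single_le_sum (f := fun t => |C t|) (fun t _ => abs_nonneg _) (Finset.mem_univ t))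
  have h2 : (m t : ℝ) ≤ 1 + ∑ t, (m t : ℝ) := by
    have := Finset.single_le_sum (f := fun t => (m t : ℝ)) (fun t _ => Nat.cast_nonneg _)
      (Finset.mem_univ t)
    linarith
  have h3 : 0 ≤ ht x.1 := ht_nonneg _
  have h4 : absLogHeight x.1.rep = ht x.1 := rfl
  rw [h4]
  nlinarith

/-- the hard inequality: points of small height in the fibres -/
lemma lower {N M : ℕ} {X : Set (Pt N)} (hX : IsQuasiProj X) {π : X → Pt M}
    (hπ : IsRegularMap X π) :
    ∃ C : ℝ, 0 < C ∧ ∀ x : X, ∃ x' : X, π x' = π x ∧ ht x'.1 ≤ C * (1 + ht (π x)) := by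
  classical
  obtain ⟨T, hT, m, p, hp1, hp2, hp3⟩ := finite_charts hπ
  obtain ⟨A, B, hAB, hXAB⟩ := hX
  -- finite subsets
  obtain ⟨A', hA', hAspan⟩ := (Submodule.fg_span_iff_fg_span_finset_subset A).mp
    (IsNoetherian.noetherian (Submodule.span (MvPolynomial (Fin (N + 1)) Qbar) A))
  obtain ⟨B', hB', hBspan⟩ := (Submodule.fg_span_iff_fg_span_finset_subset B).mp
    (IsNoetherian.noetherian (Submodule.span (MvPolynomial (Fin (N + 1)) Qbar) B))
  have hvan : ∀ (S : Set (MvPolynomial (Fin (N + 1)) Qbar)) (S' : Finset (MvPolynomial (Fin (N + 1)) Qbar)),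
      Submodule.span (MvPolynomial (Fin (N + 1)) Qbar) S =
        Submodule.span (MvPolynomial (Fin (N + 1)) Qbar) (S' : Set _) → ∀ v : Fin (N + 1) → Qbar,
      (∀ f ∈ S', eval v f = 0) → ∀ f ∈ S, eval v f = 0 := by
    intro S S' hspan v hv f hf
    have h1 : f ∈ Submodule.span (MvPolynomial (Fin (N + 1)) Qbar) (S' : Set _) := by
      rw [← hspan]
      exact Submodule.subset_span hf
    have h2 : Submodule.span (MvPolynomial (Fin (N + 1)) Qbar) (S' : Set _) ≤
        RingHom.ker (eval v) := by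
      rw [Submodule.span_le]
      intro g hg
      exact hv g hg
    exact h2 h1
  -- the systems
  let incl : MvPolynomial (Fin (N + 1)) Qbar →ₐ[Qbar]
    MvPolynomial (Fin (N + 1) ⊕ Fin (M + 1)) Qbar := rename Sum.inl
  have hincl : ∀ (x : Fin (N + 1) → Qbar) (y : Fin (M + 1) → Qbar) f,
      eval (Sum.elim x y) (incl f) = eval x f := by
    intro x y f
    simp only [incl]
    rw [eval_rename]
    rfl
  let F : T → Fin (N + 1) → (A' ⊕ Unit) ⊕ (Fin (M + 1) × Fin (M + 1)) →
      MvPolynomial (Fin (N + 1) ⊕ Fin (M + 1)) Qbar := fun t l =>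
    Sum.elim (Sum.elim (fun f => incl f.1) (fun _ => MvPolynomial.X (Sum.inl l) - 1))
      (fun ab => incl (p t ab.1) * MvPolynomial.X (Sum.inr ab.2) - incl (p t ab.2) * MvPolynomial.X (Sum.inr ab.1))
  let q : T → Fin (M + 1) → B' → MvPolynomial (Fin (N + 1) ⊕ Fin (M + 1)) Qbar := fun t j g =>
    incl g.1 * incl (p t j)
  choose C hC using fun (a : T × Fin (N + 1) × Fin (M + 1) × B') =>
    bounded_solution (F a.1 a.2.1) (q a.1 a.2.2.1 a.2.2.2)
  set Cs : ℝ := ∑ a, |C a| with hCs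
  have hCs0 : 0 ≤ Cs := Finset.sum_nonneg fun a _ => abs_nonneg _
  have hCle : ∀ a, C a ≤ Cs := fun a => (le_abs_self _).trans
    (Finset.single_le_sum (f := fun a => |C a|) (fun a _ => abs_nonneg _) (Finset.mem_univ a))
  refine ⟨(N + 1) * (Cs * (M + 1)) + 1, by positivity, fun x => ?_⟩
  -- the data of `x`
  obtain ⟨hxA, g, hg, hxg⟩ := (hXAB x.1).mp x.2
  obtain ⟨t, ht'⟩ := hp3 x
  obtain ⟨j, hj⟩ : ∃ j, eval x.1.rep (p t j) ≠ 0 := by
    by_contra hcon
    push Not at hcon
    exact ht' (funext hcon)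
  obtain ⟨l, hl⟩ : ∃ l, x.1.rep l ≠ 0 := by
    by_contra hcon
    push Not at hcon
    exact x.1.rep_nonzero (funext hcon)
  obtain ⟨g, hgB, hxg⟩ : ∃ g ∈ B', eval x.1.rep g ≠ 0 := by
    by_contra hcon
    push Not at hcon
    exact hxg (hvan B B' hBspan x.1.rep hcon g hg)
  obtain ⟨k, hk⟩ : ∃ k, (π x).rep k ≠ 0 := by
    by_contra hcon
    push Not at hcon
    exact (π x).rep_nonzero (funext hcon)
  -- normalised representatives
  set x0 : Fin (N + 1) → Qbar := (x.1.rep l)⁻¹ • x.1.rep with hx0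
  set y0 : Fin (M + 1) → Qbar := ((π x).rep k)⁻¹ • (π x).rep with hy0
  have hlinv : (x.1.rep l)⁻¹ ≠ 0 := inv_ne_zero hl
  have hkinv : ((π x).rep k)⁻¹ ≠ 0 := inv_ne_zero hk
  have hy0k : y0 k = 1 := by
    simp only [hy0, Pi.smul_apply, smul_eq_mul]
    exact inv_mul_cancel₀ hk
  have hx0l : x0 l = 1 := by
    simp only [hx0, Pi.smul_apply, smul_eq_mul]
    exact inv_mul_cancel₀ hl
  have hy0ne : y0 ≠ 0 := by
    intro h
    rw [h] at hy0k
    exact zero_ne_one hy0k
  have hπx : Projectivization.mk Qbar y0 hy0ne = π x := by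
    conv_rhs => rw [← (π x).mk_rep]
    rw [Projectivization.mk_eq_mk_iff']
    exact ⟨_, rfl⟩
  -- `p(x) = λ (π x)`
  obtain ⟨c, hc⟩ : ∃ c : Qbar, c • (π x).rep = fun i => eval x.1.rep (p t i) := by
    have h1 := hp2 t x ht'
    rw [← (π x).mk_rep] at h1
    obtain ⟨c, hc⟩ := (Projectivization.mk_eq_mk_iff' Qbar _ _ _ _).mp h1.symm
    exact ⟨c, hc⟩
  have hsol : (∀ i, eval (Sum.elim x0 y0) (F t l i) = 0) ∧
      eval (Sum.elim x0 y0) (q t j ⟨g, hgB⟩) ≠ 0 := by
    constructor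
    · rintro ((f | u) | ⟨a, b⟩)
      · show eval (Sum.elim x0 y0) (incl f.1) = 0
        rw [hincl, hx0]
        obtain ⟨mf, hmf⟩ := hAB f.1 (Or.inl (hA' f.2))
        rw [eval_smul_homog hmf, hxA f.1 (hA' f.2), mul_zero]
      · show eval (Sum.elim x0 y0) (MvPolynomial.X (Sum.inl l) - 1) = 0
        rw [map_sub, eval_X, map_one, Sum.elim_inl, hx0l, sub_self]
      · show eval (Sum.elim x0 y0) (incl (p t a) * MvPolynomial.X (Sum.inr b) - incl (p t b) * MvPolynomial.X (Sum.inr a)) = 0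
        rw [map_sub, map_mul, map_mul, eval_X, eval_X, hincl, hincl, Sum.elim_inr, Sum.elim_inr, hx0,
          eval_smul_homog (hp1 t a), eval_smul_homog (hp1 t b)]
        have ha := congrFun hc a
        have hb := congrFun hc b
        simp only [Pi.smul_apply, smul_eq_mul] at ha hb
        rw [← ha, ← hb, hy0]
        simp only [Pi.smul_apply, smul_eq_mul]
        ring
    · show eval (Sum.elim x0 y0) (incl g * incl (p t j)) ≠ 0
      rw [map_mul, hincl, hincl, hx0]
      obtain ⟨mg, hmg⟩ := hAB g (Or.inr (hB' hgB))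
      rw [eval_smul_homog hmg, eval_smul_homog (hp1 t j)]
      exact mul_ne_zero (mul_ne_zero (pow_ne_zero _ hlinv) hxg)
        (mul_ne_zero (pow_ne_zero _ hlinv) hj)
  obtain ⟨z, hz1, hz2, hz3⟩ := hC (t, l, j, ⟨g, hgB⟩) y0 ⟨x0, hsol.1, hsol.2⟩
  -- the new point
  have hzl : z l = 1 := by
    have h1 : eval (Sum.elim z y0) (MvPolynomial.X (Sum.inl l) - 1) = 0 := hz1 (Sum.inl (Sum.inr ()))
    rw [map_sub, eval_X, map_one, Sum.elim_inl] at h1
    exact sub_eq_zero.mp h1
  have hz0 : z ≠ 0 := by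
    intro h
    rw [h] at hzl
    exact zero_ne_one hzl
  have hzq : eval z g ≠ 0 ∧ eval z (p t j) ≠ 0 := by
    have h1 : eval (Sum.elim z y0) (incl g * incl (p t j)) ≠ 0 := hz2
    rw [map_mul, hincl, hincl] at h1
    exact mul_ne_zero_iff.mp h1
  have hzX : Projectivization.mk Qbar z hz0 ∈ X := by
    rw [quasi_mk hAB hXAB]
    refine ⟨hvan A A' hAspan z ?_, g, hB' hgB, hzq.1⟩
    intro f hf
    have h1 : eval (Sum.elim z y0) (incl f) = 0 := hz1 (Sum.inl (Sum.inl ⟨f, hf⟩))
    rwa [hincl] at h1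
  have hpz : (fun i => eval z (p t i)) ≠ 0 := fun h => hzq.2 (congrFun h j)
  refine ⟨⟨Projectivization.mk Qbar z hz0, hzX⟩, ?_, ?_⟩
  · rw [chart_mk (hp1 t) (hp2 t) z hz0 hzX hpz, ← hπx, Projectivization.mk_eq_mk_iff']
    refine ⟨eval z (p t k), ?_⟩
    funext i
    have h1 : eval (Sum.elim z y0) (incl (p t i) * MvPolynomial.X (Sum.inr k) - incl (p t k) * MvPolynomial.X (Sum.inr i)) = 0 :=
      hz1 (Sum.inr (i, k))
    rw [map_sub, map_mul, map_mul, eval_X, eval_X, hincl, hincl, Sum.elim_inr, Sum.elim_inr, hy0k,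
      mul_one, sub_eq_zero] at h1
    rw [Pi.smul_apply, smul_eq_mul]
    exact h1.symm
  · show ht (Projectivization.mk Qbar z hz0) ≤ _
    rw [ht_mk]
    have h1 := absLogHeight_le_sum z
    have h2 : ∀ i, absLogHeight ![1, z i] ≤ Cs * (1 + ∑ b, ha (y0 b)) := by
      intro i
      have h3 : 0 ≤ ∑ b, ha (y0 b) := Finset.sum_nonneg fun b _ => ha_nonneg _
      exact (hz3 i).trans (mul_le_mul_of_nonneg_right (hCle _) (by linarith))
    have h3 : ∀ b, ha (y0 b) ≤ ht (π x) := by
      intro b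
      have h4 := aff_le_of_eq_one y0 k hy0k b
      rw [← hπx, ht_mk]
      exact h4
    have h4 : ∑ b, ha (y0 b) ≤ (M + 1) * ht (π x) := by
      calc ∑ b, ha (y0 b) ≤ ∑ _b : Fin (M + 1), ht (π x) := Finset.sum_le_sum fun b _ => h3 b
        _ = (M + 1) * ht (π x) := by simp
    have h5 : ∑ i, absLogHeight ![1, z i] ≤ (N + 1) * (Cs * (1 + ∑ b, ha (y0 b))) := by
      calc ∑ i, absLogHeight ![1, z i] ≤ ∑ _i : Fin (N + 1), Cs * (1 + ∑ b, ha (y0 b)) :=
            Finset.sum_le_sum fun i _ => h2 i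
        _ = (N + 1) * (Cs * (1 + ∑ b, ha (y0 b))) := by simp
    have h6 : 0 ≤ ht (π x) := ht_nonneg _
    have h7 : Cs * (1 + ∑ b, ha (y0 b)) ≤ Cs * ((M + 1) * (1 + ht (π x))) := by
      apply mul_le_mul_of_nonneg_left _ hCs0
      have : (0 : ℝ) ≤ M := Nat.cast_nonneg _
      nlinarith
    have h8 : (0 : ℝ) ≤ (N : ℝ) + 1 := by positivity
    have h9 := mul_le_mul_of_nonneg_left h7 h8
    calc absLogHeight z ≤ (N + 1) * (Cs * (1 + ∑ b, ha (y0 b))) := h1.trans h5
      _ ≤ (N + 1) * (Cs * ((M + 1) * (1 + ht (π x)))) := h9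
      _ ≤ ((N + 1) * (Cs * (M + 1)) + 1) * (1 + ht (π x)) := by nlinarith

/-- **Heights on a geometric quotient.** Let `X` and `Y` be subvarieties of projective spaces, `X`
quasi-projective, and `π : X → Y` a regular map whose fibres are the orbits of a group `G` acting on
`X`. Then for all ample heights on `X` and `Y`, the height of `π x` is comparable with the minimal
height in the orbit of `x`. -/
theorem result {N M : ℕ} (X : Set (Pt N)) (hX : IsQuasiProj X) (Y : Set (Pt M)) (π : X → Y)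
    (hπ : IsRegularMap X (fun x => (π x).1)) (G : Type*) [Group G] [MulAction G X]
    (horb : ∀ x x' : X, π x' = π x ↔ ∃ g : G, g • x = x')
    (hgtX : X → ℝ) (hgtY : Y → ℝ) (hampX : IsAmpleHeight X hgtX) (hampY : IsAmpleHeight Y hgtY) :
    Comparable (fun x : X => hgtY (π x)) (fun x : X => ⨅ g : G, hgtX (g • x)) := by
  obtain ⟨a, ha, C, hC⟩ := hampX
  obtain ⟨b, hb, D, hD⟩ := hampY
  obtain ⟨m, E, hm, hE⟩ := upper hπ
  obtain ⟨F, hF, hF'⟩ := lower hX hπ
  have hX1 : ∀ x : X, a * ht x.1 - C ≤ hgtX x := fun x => by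
    have := (abs_le.mp (hC x)).1
    linarith
  have hX2 : ∀ x : X, hgtX x ≤ a * ht x.1 + C := fun x => by
    have := (abs_le.mp (hC x)).2
    linarith
  have hY1 : ∀ y : Y, b * ht y.1 - D ≤ hgtY y := fun y => by
    have := (abs_le.mp (hD y)).1
    linarith
  have hY2 : ∀ y : Y, hgtY y ≤ b * ht y.1 + D := fun y => by
    have := (abs_le.mp (hD y)).2
    linarith
  refine ⟨a / (m * b), by positivity, a * F / b, by positivity, a * (D / (m * b) + E / m) + C,
    a * F * (1 + D / b) + C, fun x => ⟨?_, ?_⟩⟩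
  · apply le_ciInf
    intro g
    have h1 : π (g • x) = π x := (horb x (g • x)).mpr ⟨g, rfl⟩
    have h2 := hE (g • x)
    rw [h1] at h2
    have h3 := hX1 (g • x)
    have h4 := hY2 (π x)
    have h5 : hgtY (π x) ≤ b * (E + m * ht (g • x).1) + D := by
      have := mul_le_mul_of_nonneg_left h2 hb.le
      linarith
    have h6 : a / (m * b) * hgtY (π x) ≤ a / (m * b) * (b * (E + m * ht (g • x).1) + D) :=
      mul_le_mul_of_nonneg_left h5 (by positivity)
    have h7 : a / (m * b) * (b * (E + m * ht (g • x).1) + D) =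
        a * ht (g • x).1 + a * (D / (m * b) + E / m) := by
      field_simp
      ring
    rw [h7] at h6
    show a / (m * b) * hgtY (π x) - (a * (D / (m * b) + E / m) + C) ≤ hgtX (g • x)
    linarith
  · obtain ⟨x', hx', hx'2⟩ := hF' x
    have h0 : π x' = π x := Subtype.ext hx'
    obtain ⟨g, hg⟩ := (horb x x').mp h0
    have hbdd : BddBelow (Set.range fun g : G => hgtX (g • x)) := by
      refine ⟨-C, ?_⟩
      rintro _ ⟨g, rfl⟩
      have h1 := hX1 (g • x)
      have h2 := ht_nonneg (g • x).1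
      show -C ≤ hgtX (g • x)
      nlinarith
    refine (ciInf_le hbdd g).trans ?_
    show hgtX (g • x) ≤ a * F / b * hgtY (π x) + (a * F * (1 + D / b) + C)
    rw [hg]
    have h1 := hX2 x'
    have h2 := hY1 (π x)
    have h3 : ht (π x).1 ≤ (hgtY (π x) + D) / b := by
      rw [le_div_iff₀ hb]
      linarith
    have h4 : a * ht x'.1 ≤ a * (F * (1 + (hgtY (π x) + D) / b)) := by
      apply mul_le_mul_of_nonneg_left _ ha.le
      refine hx'2.trans ?_
      apply mul_le_mul_of_nonneg_left _ hF.le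
      linarith
    have h5 : a * (F * (1 + (hgtY (π x) + D) / b)) = a * F / b * hgtY (π x) + a * F * (1 + D / b) := by
      field_simp
      ring
    rw [h5] at h4
    linarith

end Pool.Agent.Results.MP_216eb3_nt.OrbitHeights
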